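import Pool.Agent.Lib.MP_a267a3_lc.D1.Setup

/-!
# MP_a267a3_lc, full answer: blocks (common base of Parts I - V)

`X = OnePoint F`, `k = acl ∅`, `DD F = P¹(k)`. The blocks are the `H`-translates of `DD F`; every `n` points are
in exactly one block.
-/

set_option autoImplicit false

namespace Pool.Agent.MPa267.PG

open OnePoint Pool.Agent.MPa267.D1

/-- the standing assumptions: `H ≥ PΓL₂(F)` is `n`-transitive, `n ≥ 5`, and every `n` points are in exactly one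
translate of `DD F` -/
structure Bl {F : Type*} [Field F] (H : Subgroup (Equiv.Perm (OnePoint F))) (n : ℕ) : Prop where
  hG : GG F ≤ H
  five : 5 ≤ n
  mt : MT H n
  blk : ∀ A : Finset (OnePoint F), A.card = n →
    ∃! P : Set (OnePoint F), (∃ h ∈ H, P = h '' DD F) ∧ (A : Set (OnePoint F)) ⊆ P

section Blocks

variable {F : Type*} [Field F]

/-- a block -/
def IsBlk (H : Subgroup (Equiv.Perm (OnePoint F))) (R : Set (OnePoint F)) : Prop :=
  ∃ h ∈ H, R = h '' DD F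

/-- the line `{p + x q : x ∈ k} ∪ {∞}` -/
def Ln (p q : F) : Set (OnePoint F) :=
  {y | y = ∞ ∨ ∃ x ∈ acl (∅ : Set F), y = ((p + x * q : F) : OnePoint F)}

/-- the automorphism `φ` is the identity on `k` -/
def KA (φ : F ≃+* F) : Prop := ∀ a ∈ acl (∅ : Set F), φ a = a

/-- the union of the blocks which contain `Q` and `w` (one block if `Q ⊆ DD F` has `n - 1` points and
`w ∉ DD F`) -/
def BB (H : Subgroup (Equiv.Perm (OnePoint F))) (Q : Set (OnePoint F)) (w : OnePoint F) :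
    Set (OnePoint F) :=
  {x | ∃ R, IsBlk H R ∧ Q ⊆ R ∧ w ∈ R ∧ x ∈ R}

variable {H : Subgroup (Equiv.Perm (OnePoint F))} {n : ℕ}

theorem image_image_inv {X : Type*} (σ : Equiv.Perm X) (A : Set X) :
    σ '' ((σ⁻¹ : Equiv.Perm X) '' A) = A := by
  rw [← Set.image_comp]
  have : (σ : X → X) ∘ (σ⁻¹ : Equiv.Perm X) = id := by funext y; exact apply_inv_self' σ y
  rw [this, Set.image_id]

theorem image_inv_image {X : Type*} (σ : Equiv.Perm X) (A : Set X) :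
    (σ⁻¹ : Equiv.Perm X) '' (σ '' A) = A := by
  rw [← Set.image_comp]
  have : ((σ⁻¹ : Equiv.Perm X) : X → X) ∘ σ = id := by funext y; exact inv_apply_self' σ y
  rw [this, Set.image_id]

theorem image_mul {X : Type*} (σ τ : Equiv.Perm X) (A : Set X) :
    (σ * τ : Equiv.Perm X) '' A = σ '' (τ '' A) := by
  rw [← Set.image_comp]; rfl

theorem mem_image_inv {X : Type*} {σ : Equiv.Perm X} {A : Set X} {x : X} :
    x ∈ (σ⁻¹ : Equiv.Perm X) '' A ↔ σ x ∈ A := by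
  constructor
  · rintro ⟨a, ha, rfl⟩
    rwa [apply_inv_self']
  · intro h
    exact ⟨σ x, h, inv_apply_self' σ x⟩

/-! ### blocks -/

theorem isBlk_DD : IsBlk H (DD F) := ⟨1, H.one_mem, by simp⟩

theorem isBlk_image_DD {h : Equiv.Perm (OnePoint F)} (hh : h ∈ H) : IsBlk H (h '' DD F) :=
  ⟨h, hh, rfl⟩

theorem IsBlk.image {R : Set (OnePoint F)} (hR : IsBlk H R) {h : Equiv.Perm (OnePoint F)}
    (hh : h ∈ H) : IsBlk H (h '' R) := by
  obtain ⟨g, hg, rfl⟩ := hR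
  exact ⟨h * g, H.mul_mem hh hg, (image_mul h g _).symm⟩

theorem DD_infinite [IsAlgClosed F] : (DD F).Infinite := by
  have hinf : (acl (∅ : Set F) : Set F).Infinite :=
    (UU_infinite (F := F)).mono UU_subset_acl
  refine Set.Infinite.mono ?_ (hinf.image (f := fun x : F => (x : OnePoint F))
    (fun x _ y _ h => coe_eq_coe.1 h))
  rintro _ ⟨x, hx, rfl⟩
  exact (coe_mem_PP _ _).2 hx

theorem IsBlk.infinite [IsAlgClosed F] {R : Set (OnePoint F)} (hR : IsBlk H R) : R.Infinite := by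
  obtain ⟨g, _, rfl⟩ := hR
  exact DD_infinite.image g.injective.injOn

/-- two blocks which share at least `n` points are equal -/
theorem Bl.eq_of_card (s : Bl H n) {P R : Set (OnePoint F)} (hP : IsBlk H P) (hR : IsBlk H R)
    (A : Finset (OnePoint F)) (hA : n ≤ A.card) (h1 : (A : Set (OnePoint F)) ⊆ P)
    (h2 : (A : Set (OnePoint F)) ⊆ R) : P = R := by
  obtain ⟨B, hB, hBc⟩ := Finset.exists_subset_card_eq hA
  exact (s.blk B hBc).unique ⟨hP, fun _ hx => h1 (hB hx)⟩ ⟨hR, fun _ hx => h2 (hB hx)⟩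

theorem Bl.eq_of_ncard (s : Bl H n) {P R A : Set (OnePoint F)} (hP : IsBlk H P) (hR : IsBlk H R)
    (hA : n ≤ A.ncard) (h1 : A ⊆ P) (h2 : A ⊆ R) : P = R := by
  have h5 := s.five
  have hfin : A.Finite := Set.finite_of_ncard_pos (by omega)
  refine s.eq_of_card hP hR hfin.toFinset ?_ ?_ ?_
  · rwa [← Set.ncard_eq_toFinset_card A hfin]
  · intro x hx; exact h1 (by simpa using hx)
  · intro x hx; exact h2 (by simpa using hx)

theorem Bl.eq_of_infinite (s : Bl H n) {P R : Set (OnePoint F)} (hP : IsBlk H P) (hR : IsBlk H R)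
    (h : (P ∩ R).Infinite) : P = R := by
  obtain ⟨A, hA, hAc⟩ := h.exists_subset_card_eq n
  exact s.eq_of_card hP hR A hAc.ge (fun _ hx => (hA hx).1) (fun _ hx => (hA hx).2)

/-- an element of `H` which maps `n` points of a block into the block preserves it -/
theorem Bl.image_eq_of_maps (s : Bl H n) {R : Set (OnePoint F)} (hR : IsBlk H R)
    {τ : Equiv.Perm (OnePoint F)} (hτ : τ ∈ H) (A : Finset (OnePoint F)) (hA : n ≤ A.card)
    (h1 : ∀ a ∈ A, a ∈ R) (h2 : ∀ a ∈ A, τ a ∈ R) : τ '' R = R := by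
  classical
  refine s.eq_of_card (hR.image hτ) hR (A.image τ) ?_ ?_ ?_
  · rwa [Finset.card_image_of_injective _ τ.injective]
  · intro x hx
    obtain ⟨a, ha, rfl⟩ := Finset.mem_image.1 (Finset.mem_coe.1 hx)
    exact ⟨a, h1 a ha, rfl⟩
  · intro x hx
    obtain ⟨a, ha, rfl⟩ := Finset.mem_image.1 (Finset.mem_coe.1 hx)
    exact h2 a ha

theorem Bl.image_eq_of_fix (s : Bl H n) {R : Set (OnePoint F)} (hR : IsBlk H R)
    {τ : Equiv.Perm (OnePoint F)} (hτ : τ ∈ H) (A : Finset (OnePoint F)) (hA : n ≤ A.card)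
    (h1 : ∀ a ∈ A, a ∈ R) (h2 : ∀ a ∈ A, τ a = a) : τ '' R = R :=
  s.image_eq_of_maps hR hτ A hA h1 (fun a ha => by rw [h2 a ha]; exact h1 a ha)

/-- set version: `τ` maps the infinite part `A` of the block `R` into `R` -/
theorem Bl.image_eq_of_infinite (s : Bl H n) {R A : Set (OnePoint F)} (hR : IsBlk H R)
    {τ : Equiv.Perm (OnePoint F)} (hτ : τ ∈ H) (hA : A.Infinite)
    (h1 : ∀ a ∈ A, a ∈ R) (h2 : ∀ a ∈ A, τ a ∈ R) : τ '' R = R := by
  obtain ⟨B, hB, hBc⟩ := hA.exists_subset_card_eq n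
  exact s.image_eq_of_maps hR hτ B hBc.ge (fun a ha => h1 a (hB ha)) (fun a ha => h2 a (hB ha))

/-- there is a block through `n` points -/
theorem Bl.exists_block (s : Bl H n) (A : Finset (OnePoint F)) (hA : A.card = n) :
    ∃ R, IsBlk H R ∧ (A : Set (OnePoint F)) ⊆ R := by
  obtain ⟨P, hP, _⟩ := s.blk A hA
  exact ⟨P, hP.1, hP.2⟩

/-! ### circles and lines -/

theorem isBlk_mob (hG : GG F ≤ H) (g : GL (Fin 2) F) : IsBlk H (mob g '' DD F) :=
  ⟨mob g, hG (mob_mem_GG g), rfl⟩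

theorem mem_Ln {p q : F} {y : OnePoint F} :
    y ∈ Ln p q ↔ y = ∞ ∨ ∃ x ∈ acl (∅ : Set F), y = ((p + x * q : F) : OnePoint F) := Iff.rfl

@[simp] theorem infty_mem_Ln (p q : F) : (∞ : OnePoint F) ∈ Ln p q := Or.inl rfl

theorem coe_mem_Ln {p q y : F} :
    (y : OnePoint F) ∈ Ln p q ↔ ∃ x ∈ acl (∅ : Set F), y = p + x * q := by
  constructor
  · rintro (h | ⟨x, hx, h⟩)
    · exact absurd h (coe_ne_infty y)
    · exact ⟨x, hx, coe_eq_coe.1 h⟩
  · rintro ⟨x, hx, rfl⟩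
    exact Or.inr ⟨x, hx, rfl⟩

theorem isBlk_Ln (hG : GG F ≤ H) (p : F) {q : F} (hq : q ≠ 0) : IsBlk H (Ln p q) := by
  refine ⟨addP p * mulP q, hG ((GG F).mul_mem (addP_mem_GG p) (mulP_mem_GG q)), ?_⟩
  rw [image_mul]
  ext y
  constructor
  · rintro (rfl | ⟨x, hx, rfl⟩)
    · exact ⟨∞, ⟨∞, infty_mem_PP _, mulP_infty q⟩, addP_infty p⟩
    · refine ⟨((q * x : F) : OnePoint F), ⟨(x : OnePoint F), (coe_mem_PP _ _).2 hx,
        mulP_coe hq x⟩, ?_⟩
      rw [addP_coe, mul_comm]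
  · rintro ⟨_, ⟨z, hz, rfl⟩, rfl⟩
    rcases hz with rfl | ⟨x, hx, rfl⟩
    · rw [mulP_infty, addP_infty]; exact Or.inl rfl
    · rw [mulP_coe hq, addP_coe]
      exact Or.inr ⟨x, hx, by rw [mul_comm]⟩

/-! ### the block through `Q` and `w` -/

theorem image_BB {h : Equiv.Perm (OnePoint F)} (hh : h ∈ H) (Q : Set (OnePoint F))
    (w : OnePoint F) : h '' BB H Q w = BB H (h '' Q) (h w) := by
  ext x
  constructor
  · rintro ⟨y, ⟨R, hR, hQ, hw, hy⟩, rfl⟩
    exact ⟨h '' R, hR.image hh, Set.image_mono hQ, ⟨w, hw, rfl⟩, ⟨y, hy, rfl⟩⟩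
  · rintro ⟨R, hR, hQ, hw, hx⟩
    refine ⟨h⁻¹ x, ⟨(h⁻¹ : Equiv.Perm _) '' R, hR.image (H.inv_mem hh), ?_, ?_, ⟨x, hx, rfl⟩⟩,
      apply_inv_self' h x⟩
    · intro q hq
      exact mem_image_inv.2 (hQ ⟨q, hq, rfl⟩)
    · exact mem_image_inv.2 hw

theorem finite_of_ncard (s : Bl H n) {Q : Set (OnePoint F)} (hQ : Q.ncard = n - 1) : Q.Finite :=
  Set.finite_of_ncard_pos (by have := s.five; omega)

theorem Bl.ncard_insert (s : Bl H n) {Q : Set (OnePoint F)} (hQ : Q.ncard = n - 1)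
    {w : OnePoint F} (hw : w ∉ Q) : (insert w Q).ncard = n := by
  have := s.five
  rw [Set.ncard_insert_of_notMem hw (finite_of_ncard s hQ), hQ]; omega

/-- a block which contains `Q` and `w ∉ Q` is `BB H Q w` -/
theorem Bl.eq_BB (s : Bl H n) {Q R : Set (OnePoint F)} (hQ : Q.ncard = n - 1) {w : OnePoint F}
    (hw : w ∉ Q) (hR : IsBlk H R) (h1 : Q ⊆ R) (h2 : w ∈ R) : BB H Q w = R := by
  ext x
  constructor
  · rintro ⟨R', hR', h1', h2', hx⟩
    have : R' = R := s.eq_of_ncard hR' hR (A := insert w Q) (by rw [s.ncard_insert hQ hw])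
      (Set.insert_subset h2' h1') (Set.insert_subset h2 h1)
    rwa [this] at hx
  · intro hx
    exact ⟨R, hR, h1, h2, hx⟩

theorem Bl.isBlk_BB (s : Bl H n) {Q : Set (OnePoint F)} (hQ : Q.ncard = n - 1) {w : OnePoint F}
    (hw : w ∉ Q) : IsBlk H (BB H Q w) ∧ Q ⊆ BB H Q w ∧ w ∈ BB H Q w := by
  have hfin : (insert w Q).Finite := (finite_of_ncard s hQ).insert w
  obtain ⟨R, hR, hA⟩ := s.exists_block hfin.toFinset (by
    rw [← Set.ncard_eq_toFinset_card _ hfin, s.ncard_insert hQ hw])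
  rw [Set.Finite.coe_toFinset] at hA
  have h1 : Q ⊆ R := fun q hq => hA (Set.mem_insert_of_mem _ hq)
  have h2 : w ∈ R := hA (Set.mem_insert _ _)
  rw [s.eq_BB hQ hw hR h1 h2]
  exact ⟨hR, h1, h2⟩

/-- `B(Q, w) = B(Q, r)` for every point `r ∉ Q` of `B(Q, w)` -/
theorem Bl.BB_eq_BB (s : Bl H n) {Q : Set (OnePoint F)} (hQ : Q.ncard = n - 1) {w r : OnePoint F}
    (hw : w ∉ Q) (hr : r ∉ Q) (h : r ∈ BB H Q w) : BB H Q r = BB H Q w := by
  obtain ⟨h1, h2, _⟩ := s.isBlk_BB hQ hw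
  exact s.eq_BB hQ hr h1 h2 h

/-- a block which contains `n - 1` points `Q` of `D` and a point outside `D` meets `D` in `Q` -/
theorem Bl.inter_DD (s : Bl H n) {Q R : Set (OnePoint F)} (hQ : Q.ncard = n - 1) (hQD : Q ⊆ DD F)
    (hR : IsBlk H R) (hQR : Q ⊆ R) {w : OnePoint F} (hw : w ∉ DD F) (hwR : w ∈ R) :
    R ∩ DD F = Q := by
  apply Set.Subset.antisymm
  · rintro x ⟨hxR, hxD⟩
    by_contra hx
    have : R = DD F := s.eq_of_ncard hR isBlk_DD (A := insert x Q)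
      (by rw [s.ncard_insert hQ hx]) (Set.insert_subset hxR hQR) (Set.insert_subset hxD hQD)
    rw [this] at hwR
    exact hw hwR
  · intro x hx
    exact ⟨hQR hx, hQD hx⟩

theorem Bl.BB_inter_DD (s : Bl H n) {Q : Set (OnePoint F)} (hQ : Q.ncard = n - 1)
    (hQD : Q ⊆ DD F) {w : OnePoint F} (hw : w ∉ DD F) : BB H Q w ∩ DD F = Q := by
  obtain ⟨h1, h2, h3⟩ := s.isBlk_BB hQ (w := w) (fun h => hw (hQD h))
  exact s.inter_DD hQ hQD h1 h2 hw h3

/-! ### automorphisms over `k` -/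

theorem coe_mem_DD {x : F} : (x : OnePoint F) ∈ DD F ↔ x ∈ acl (∅ : Set F) := coe_mem_PP _ _

theorem infty_mem_DD : (∞ : OnePoint F) ∈ DD F := infty_mem_PP _

theorem exists_coe_of_not_mem_DD {x : OnePoint F} (hx : x ∉ DD F) :
    ∃ a : F, x = (a : OnePoint F) ∧ a ∉ acl (∅ : Set F) := by
  induction x using OnePoint.rec with
  | infty => exact absurd infty_mem_DD hx
  | coe a => exact ⟨a, rfl, fun h => hx (coe_mem_DD.2 h)⟩

theorem autP_fix_DD {φ : F ≃+* F} (hφ : KA φ) {x : OnePoint F} (hx : x ∈ DD F) :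
    autP φ x = x := by
  rcases hx with rfl | ⟨a, ha, rfl⟩
  · exact autP_infty φ
  · rw [autP_coe, hφ a ha]

theorem autP_image_of_fix {φ : F ≃+* F} (hφ : KA φ) {Q : Set (OnePoint F)} (hQ : Q ⊆ DD F) :
    autP φ '' Q = Q := by
  ext x
  constructor
  · rintro ⟨q, hq, rfl⟩
    rwa [autP_fix_DD hφ (hQ hq)]
  · intro hx
    exact ⟨x, hx, autP_fix_DD hφ (hQ hx)⟩

theorem autP_mem (hG : GG F ≤ H) (φ : F ≃+* F) : autP φ ∈ H := hG (autP_mem_GG φ)

/-- `Aut(F/k)` is transitive outside `D` -/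
theorem exists_KA [IsAlgClosed F] {x y : OnePoint F} (hx : x ∉ DD F) (hy : y ∉ DD F) :
    ∃ φ : F ≃+* F, KA φ ∧ autP φ x = y := by
  obtain ⟨a, rfl, ha⟩ := exists_coe_of_not_mem_DD hx
  obtain ⟨b, rfl, hb⟩ := exists_coe_of_not_mem_DD hy
  have hk : IsAlgClosed (acl (∅ : Set F)) := isAlgClosed_acl _
  obtain ⟨φ, h1, h2⟩ := exists_aut_of_not_mem (acl (∅ : Set F)) ha hb
  exact ⟨φ, h1, by rw [autP_coe, h2]⟩

/-- `α` in `Aut(F/k)` maps `B(Q, w)` to `B(Q, α w)` -/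
theorem autP_image_BB (hG : GG F ≤ H) {φ : F ≃+* F} (hφ : KA φ) {Q : Set (OnePoint F)}
    (hQ : Q ⊆ DD F) (w : OnePoint F) : autP φ '' BB H Q w = BB H Q (autP φ w) := by
  rw [image_BB (autP_mem hG φ), autP_image_of_fix hφ hQ]

end Blocks

end Pool.Agent.MPa267.PG
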