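import Pool.Agent.Lib.MP_a267a3_lc.PG.SpecA

/-!
# Additive families of automorphisms of an algebraic extension of the prime field are trivial
-/

set_option autoImplicit false

namespace Pool.Agent.MPa267.PG

namespace TorAux

open Polynomial

/-- Ring automorphisms fix the prime field. -/
theorem fix_bot {K : Type} [Field K] (T : K ≃+* K) (a : (⊥ : Subfield K)) : T (a : K) = a := by
  have h : (⊥ : Subfield K) ≤ RingHom.eqLocusField (T : K →+* K) (RingHom.id K) := bot_le
  exact h a.2

/-- Ring automorphisms permute the roots of a polynomial over the prime field. -/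
theorem aeval_map {K : Type} [Field K] (T : K ≃+* K) (f : (⊥ : Subfield K)[X]) (x : K) :
    aeval (T x) f = T (aeval x f) := by
  have h : ((T : K →+* K).comp (algebraMap (⊥ : Subfield K) K)) =
      algebraMap (⊥ : Subfield K) K := RingHom.ext fun a => fix_bot T a
  have h2 := hom_eval₂ f (algebraMap (⊥ : Subfield K) K) (T : K →+* K) x
  rw [h] at h2
  exact h2.symm

/-- A permutation of a set which preserves a finite subset: a uniform period. -/
theorem iter_fix {K : Type} (R : Set K) [Finite R] (T : K ≃ K) (hT : ∀ x, T x ∈ R ↔ x ∈ R)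
    (b : K) (hb : b ∈ R) : T^[Nat.card (Equiv.Perm R)] b = b := by
  let σ : Equiv.Perm R := Equiv.Perm.subtypePerm T hT
  have h1 : ∀ n : ℕ, (((σ ^ n) ⟨b, hb⟩ : R) : K) = T^[n] b := by
    intro n
    induction n with
    | zero => rfl
    | succ n ih => rw [pow_succ', Equiv.Perm.mul_apply, Function.iterate_succ_apply', ← ih]; rfl
  have h2 : σ ^ Nat.card (Equiv.Perm R) = 1 := pow_card_eq_one'
  rw [← h1, h2]
  rfl

/-- The family at multiples. -/
theorem lam_nsmul {K E : Type} [Field K] [Field E] (lam : E → (K ≃+* K))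
    (hl : ∀ h h' b, lam (h + h') b = lam h (lam h' b)) (h : E) (n : ℕ) (b : K) :
    lam (n • h) b = (lam h)^[n] b := by
  induction n generalizing b with
  | zero =>
    rw [zero_smul]
    have h0 := hl 0 0 b
    rw [add_zero] at h0
    exact ((lam 0).injective h0).symm
  | succ n ih => rw [succ_nsmul', hl, ih, Function.iterate_succ_apply']

/-- Characteristic zero. -/
theorem tor_zero {K E : Type} [Field K] [Field E] [CharZero E]
    (halg : Algebra.IsAlgebraic (⊥ : Subfield K) K) (lam : E → (K ≃+* K))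
    (hl : ∀ h h' b, lam (h + h') b = lam h (lam h' b)) (h : E) (b : K) : lam h b = b := by
  have hb : IsIntegral (⊥ : Subfield K) b := (halg.isAlgebraic b).isIntegral
  have hf0 : minpoly (⊥ : Subfield K) b ≠ 0 := minpoly.ne_zero hb
  let R : Set K := (minpoly (⊥ : Subfield K) b).rootSet K
  have hmem : ∀ x, x ∈ R ↔ aeval x (minpoly (⊥ : Subfield K) b) = 0 :=
    fun x => mem_rootSet_of_ne hf0
  have hbR : b ∈ R := (hmem b).2 (minpoly.aeval _ _)
  have hM : Nat.card (Equiv.Perm R) ≠ 0 := Nat.card_pos.ne'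
  have hM' : ((Nat.card (Equiv.Perm R) : ℕ) : E) ≠ 0 := by exact_mod_cast hM
  have e1 : h = Nat.card (Equiv.Perm R) • (h / (Nat.card (Equiv.Perm R) : ℕ)) := by
    rw [nsmul_eq_mul, mul_div_cancel₀ _ hM']
  rw [e1, lam_nsmul lam hl]
  refine iter_fix R (lam (h / (Nat.card (Equiv.Perm R) : ℕ))).toEquiv (fun x => ?_) b hbR
  rw [hmem, hmem]
  change aeval ((lam (h / (Nat.card (Equiv.Perm R) : ℕ))) x) _ = 0 ↔ _
  rw [aeval_map, map_eq_zero_iff _ (RingEquiv.injective _)]

/-- Characteristic `p`. -/
theorem tor_p {K : Type} [Field K] [IsAlgClosed K] (p : ℕ) [Fact p.Prime] [Algebra (ZMod p) K]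
    (halg : Algebra.IsAlgebraic (ZMod p) K) (T : K ≃ₐ[ZMod p] K) (hT : T ^ p = 1) (b : K) :
    T b = b := by
  have hb : IsIntegral (ZMod p) b := (halg.isAlgebraic b).isIntegral
  have hfd : FiniteDimensional (ZMod p) (IntermediateField.adjoin (ZMod p) {b}) :=
    IntermediateField.adjoin.finiteDimensional hb
  have hfin : Finite (IntermediateField.adjoin (ZMod p) {b}) :=
    Module.finite_of_finite (ZMod p)
  obtain ⟨r, hr0, hr⟩ : ∃ r : ℕ, r ≠ 0 ∧ b ^ p ^ r = b := by
    refine ⟨Module.finrank (ZMod p) (IntermediateField.adjoin (ZMod p) {b}),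
      Module.finrank_pos.ne', ?_⟩
    have := Fintype.ofFinite (IntermediateField.adjoin (ZMod p) {b})
    have hc : Fintype.card (IntermediateField.adjoin (ZMod p) {b}) =
        p ^ Module.finrank (ZMod p) (IntermediateField.adjoin (ZMod p) {b}) := by
      rw [Module.card_eq_pow_finrank (K := ZMod p), ZMod.card]
    have h1 := FiniteField.pow_card
      (⟨b, IntermediateField.mem_adjoin_simple_self (ZMod p) b⟩ :
        IntermediateField.adjoin (ZMod p) {b})
    rw [hc] at h1
    exact congrArg Subtype.val h1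
  have hrj : ∀ j : ℕ, b ^ p ^ (r * j) = b := by
    intro j
    induction j with
    | zero => rw [mul_zero, pow_zero, pow_one]
    | succ j ih => rw [mul_add, mul_one, pow_add, pow_mul, ih, hr]
  have hn : r * p ≠ 0 := mul_ne_zero hr0 (Fact.out : p.Prime).ne_zero
  let φ : GaloisField p (r * p) →ₐ[ZMod p] K := IsAlgClosed.lift
  let iA : Algebra (GaloisField p (r * p)) K := φ.toRingHom.toAlgebra
  have iT : IsScalarTower (ZMod p) (GaloisField p (r * p)) K :=
    IsScalarTower.of_algebraMap_eq fun x => (φ.commutes x).symm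
  have hsp : ((X ^ p ^ (r * p) - X : (ZMod p)[X]).map
      (algebraMap (ZMod p) (GaloisField p (r * p)))).Splits :=
    SplittingField.splits _
  have hne : (X ^ p ^ (r * p) - X : (ZMod p)[X]) ≠ 0 :=
    FiniteField.X_pow_card_pow_sub_X_ne_zero _ hn (Fact.out : p.Prime).one_lt
  obtain ⟨c, hc⟩ : ∃ c : GaloisField p (r * p), φ c = b := by
    have h1 : b ∈ (X ^ p ^ (r * p) - X : (ZMod p)[X]).rootSet K := by
      rw [mem_rootSet_of_ne hne, map_sub, map_pow, aeval_X, hrj, sub_self]
    rw [← hsp.image_rootSet φ] at h1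
    obtain ⟨c, -, hc⟩ := h1
    exact ⟨c, hc⟩
  have hTp : (AlgEquiv.restrictNormalHom (GaloisField p (r * p)) T) ^ p = 1 := by
    rw [← map_pow, hT, map_one]
  obtain ⟨i, hi'⟩ : ∃ i : ℕ,
      FiniteField.frobeniusAlgEquivOfAlgebraic (ZMod p) (GaloisField p (r * p)) ^ i
        = AlgEquiv.restrictNormalHom (GaloisField p (r * p)) T := by
    obtain ⟨i, hi⟩ := (FiniteField.bijective_frobeniusAlgEquivOfAlgebraic_pow (ZMod p)
      (GaloisField p (r * p))).2 (AlgEquiv.restrictNormalHom (GaloisField p (r * p)) T)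
    exact ⟨i, hi⟩
  have hd : r * p ∣ i * p := by
    have ho : orderOf (FiniteField.frobeniusAlgEquivOfAlgebraic (ZMod p)
        (GaloisField p (r * p))) = r * p := by
      rw [FiniteField.orderOf_frobeniusAlgEquivOfAlgebraic, GaloisField.finrank p hn]
    have h1 : FiniteField.frobeniusAlgEquivOfAlgebraic (ZMod p) (GaloisField p (r * p))
        ^ (i * p) = 1 := by
      rw [pow_mul, hi', hTp]
    have h2 := orderOf_dvd_of_pow_eq_one h1
    rwa [ho] at h2
  have hd2 : r ∣ i := Nat.dvd_of_mul_dvd_mul_right (Fact.out : p.Prime).pos hd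
  obtain ⟨j, hj⟩ := hd2
  have h2 : algebraMap (GaloisField p (r * p)) K
      ((AlgEquiv.restrictNormalHom (GaloisField p (r * p)) T) c) = T b := by
    rw [← hc]
    exact AlgEquiv.restrictNormal_commutes T (GaloisField p (r * p)) c
  have h3 : (AlgEquiv.restrictNormalHom (GaloisField p (r * p)) T) c = c ^ p ^ i := by
    rw [← hi', AlgEquiv.coe_pow, FiniteField.coe_frobeniusAlgEquivOfAlgebraic_iterate, ZMod.card]
  rw [← h2, h3, map_pow]
  change (φ c) ^ p ^ i = b
  rw [hc, hj, hrj]

end TorAux

open TorAux in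
/-- Automorphisms of an algebraic extension. -/
theorem tTor : S_Tor := by
  intro K E _ _ _ q _ _ hq halg lam hl h b
  rcases hq with rfl | hq
  · have : CharZero E := CharP.charP_to_charZero E
    exact tor_zero halg lam hl h b
  · have : Fact q.Prime := ⟨hq⟩
    let iA : Algebra (ZMod q) K := ZMod.algebra K q
    have halg2 : Algebra.IsAlgebraic (algebraMap (ZMod q) K).fieldRange K := by
      rw [← Subfield.bot_eq_of_zMod_algebra q]
      exact halg
    have halg3 : Algebra.IsAlgebraic (ZMod q) K :=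
      Algebra.IsAlgebraic.of_ringHom_of_comp_eq (algebraMap (ZMod q) K).rangeRestrictField
        (RingHom.id K) (RingHom.rangeRestrictField_bijective _).2 Function.injective_id rfl
    have hcomm : ∀ r : ZMod q, lam h (algebraMap (ZMod q) K r) = algebraMap (ZMod q) K r :=
      fun r => RingHom.congr_fun (Subsingleton.elim
        (((lam h : K →+* K)).comp (algebraMap (ZMod q) K)) (algebraMap (ZMod q) K)) r
    have hT : (AlgEquiv.ofRingEquiv (f := lam h) hcomm : K ≃ₐ[ZMod q] K) ^ q = 1 := by
      ext x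
      rw [AlgEquiv.coe_pow]
      have h1 := lam_nsmul lam hl h q x
      rw [nsmul_eq_mul, CharP.cast_eq_zero, zero_mul] at h1
      have h0 := lam_nsmul lam hl h 0 x
      rw [zero_smul] at h0
      exact (h1.symm.trans h0)
    exact tor_p q halg3 (AlgEquiv.ofRingEquiv (f := lam h) hcomm) hT b

end Pool.Agent.MPa267.PG
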